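import Mathlib

namespace Pool.Agent.H.MP_a5b0d0_al

open Relation List

variable {α : Type}

/-- One rewriting step. -/
def Step (R : Set (List α × List α)) (u v : List α) : Prop :=
  ∃ p q x y, (x, y) ∈ R ∧ u = p ++ x ++ q ∧ v = p ++ y ++ q

def Confluent (R : Set (List α × List α)) : Prop :=
  ∀ u v w, ReflTransGen (Step R) u v → ReflTransGen (Step R) u w →
    ∃ z, ReflTransGen (Step R) v z ∧ ReflTransGen (Step R) w z

def rel (R : Set (List α × List α)) (x y : FreeMonoid α) : Prop := (x.toList, y.toList) ∈ R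

/-- The class of a word in the monoid presented by `R`. -/
def cls (R : Set (List α × List α)) (w : List α) : PresentedMonoid (rel R) :=
  PresentedMonoid.mk (rel R) (FreeMonoid.ofList w)

def IsZero {M : Type} [Monoid M] (z : M) : Prop := ∀ x, z * x = z ∧ x * z = z

/-- `P a`; all of `M` if `M` has no zero. -/
def P {M : Type} [Monoid M] (a : M) : Set M :=
  {g | ∀ z, IsZero z → (a = z → g = z) ∧ (a ≠ z → ∀ m, m * a * g = z → m * a = z)}

def CConj {M : Type} [Monoid M] (a b : M) : Prop :=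
  ∃ g ∈ P a, ∃ h ∈ P b, a * g = g * b ∧ b * h = h * a

abbrev Red (R : Set (List α × List α)) := ReflTransGen (Step R)

variable {R : Set (List α × List α)}

theorem Step.ctx {u v : List α} (h : Step R u v) (s t : List α) :
    Step R (s ++ u ++ t) (s ++ v ++ t) := by
  obtain ⟨p, q, x, y, h, rfl, rfl⟩ := h
  exact ⟨s ++ p, q ++ t, x, y, h, by simp, by simp⟩

theorem Red.ctx {u v : List α} (h : Red R u v) (s t : List α) :
    Red R (s ++ u ++ t) (s ++ v ++ t) := by
  induction h with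
  | refl => exact .refl
  | tail _ h ih => exact ih.tail (h.ctx s t)

theorem cls_mul (u v : List α) : cls R u * cls R v = cls R (u ++ v) := rfl

theorem cls_surj (x : PresentedMonoid (rel R)) : ∃ u, x = cls R u := by
  obtain ⟨u, rfl⟩ := PresentedMonoid.surjective_mk x
  exact ⟨u.toList, rfl⟩

theorem cls_red {u v : List α} (h : Red R u v) : cls R u = cls R v := by
  induction h with
  | refl => rfl
  | tail _ s ih =>
    obtain ⟨p, q, x, y, h, rfl, rfl⟩ := s
    have : cls R x = cls R y := PresentedMonoid.mk_eq_mk_iff.2 (ConGen.Rel.of _ _ h)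
    rw [ih, ← cls_mul, ← cls_mul, this]
    rfl

theorem cls_iff (H : Confluent R) {u v : List α} : cls R u = cls R v ↔ Join (Red R) u v := by
  refine ⟨fun h => ?_, fun ⟨z, h1, h2⟩ => (cls_red h1).trans (cls_red h2).symm⟩
  have E : Equivalence (Join (Red R)) := equivalence_join H
  let c : Con (FreeMonoid α) :=
    { r := fun x y => Join (Red R) x.toList y.toList
      iseqv := ⟨fun _ => E.refl _, E.symm, E.trans⟩
      mul' := fun {w x y z} ⟨d, h1, h2⟩ ⟨e, h3, h4⟩ => ⟨d ++ e,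
        .trans (by simpa using h1.ctx [] y.toList) (by simpa using h3.ctx d []),
        .trans (by simpa using h2.ctx [] z.toList) (by simpa using h4.ctx d [])⟩ }
  have hle : conGen (rel R) ≤ c := Con.conGen_le.2 fun x y h =>
    ⟨y.toList, .single ⟨[], [], _, _, h, by simp, by simp⟩, .refl⟩
  exact hle (PresentedMonoid.mk_eq_mk_iff.1 h)

def Orth (R : Set (List α × List α)) : Prop := ∀ x y x' y' s t t', (x, y) ∈ R → (x', y') ∈ R →
  x ++ t = s ++ x' ++ t' → s.length < x.length → s = [] ∧ x = x' ∧ y = y'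

theorem Orth.conf (H : Orth R) : Confluent R := by
  have key : ∀ p q x y s x' y' q', (x, y) ∈ R → (x', y') ∈ R → x ++ q = s ++ x' ++ q' →
      ∃ d, ReflGen (Step R) (p ++ y ++ q) d ∧ ReflGen (Step R) (p ++ s ++ y' ++ q') d := by
    intro p q x y s x' y' q' h h' e
    by_cases hl : s.length < x.length
    · obtain ⟨rfl, rfl, rfl⟩ := H _ _ _ _ _ _ _ h h' e hl
      rw [nil_append, append_cancel_left_eq] at e
      exact ⟨_, .refl, by simpa [e] using .refl⟩
    · rw [append_assoc] at e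
      obtain ⟨w, rfl⟩ : x <+: s := prefix_of_prefix_length_le ⟨_, e⟩ (prefix_append _ _) (by omega)
      rw [append_assoc, append_cancel_left_eq] at e
      exact ⟨p ++ y ++ w ++ y' ++ q', .single ⟨p ++ y ++ w, q', _, _, h', by simp [e], rfl⟩,
        .single ⟨p, w ++ y' ++ q', _, _, h, by simp, by simp⟩⟩
  refine fun u v w => church_rosser ?_
  rintro _ _ _ ⟨p, q, x, y, h, rfl, rfl⟩ ⟨p', q', x', y', h', e, rfl⟩
  rw [append_assoc, append_assoc] at e
  rcases append_eq_append_iff.1 e with ⟨s, rfl, e1⟩ | ⟨s, rfl, e1⟩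
  · obtain ⟨d, h1, h2⟩ := key p q x y s x' y' q' h h' (by simp [e1])
    exact ⟨d, h1, h2.to_reflTransGen⟩
  · obtain ⟨d, h1, h2⟩ := key p' q' x' y' s x y q h' h (by simp [e1])
    exact ⟨d, h2, h1.to_reflTransGen⟩

/-- `R` together with the rules making the letter `Z` a zero. -/
def wz (R : Set (List α × List α)) (Z : α) : Set (List α × List α) :=
  R ∪ {r | ∃ c, r = ([Z, c], [Z]) ∨ r = ([c, Z], [Z])}

def Dies (R : Set (List α × List α)) (Z : α) (u : List α) : Prop := ∃ v, Red R u v ∧ Z ∈ v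

variable {Z : α}

theorem Dies.ctx {u : List α} (h : Dies R Z u) (s t : List α) : Dies R Z (s ++ u ++ t) :=
  let ⟨v, h1, h2⟩ := h
  ⟨_, h1.ctx s t, by simp [h2]⟩

theorem red_wz {u v : List α} (h : Red R u v) : Red (wz R Z) u v := by
  induction h with
  | refl => exact .refl
  | tail _ s ih =>
    obtain ⟨p, q, x, y, h, e⟩ := s
    exact ih.tail ⟨p, q, x, y, Or.inl h, e⟩

theorem red_z {u : List α} (h : Z ∈ u) : Red (wz R Z) u [Z] := by
  obtain ⟨p, q, rfl⟩ := append_of_mem h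
  clear h
  induction p with
  | cons c p ih =>
    exact .tail (by simpa using ih.ctx [c] []) ⟨[], [], _, _, Or.inr ⟨c, Or.inr rfl⟩, rfl, rfl⟩
  | nil =>
    induction q with
    | nil => exact .refl
    | cons c q ih => exact .head ⟨[], q, _, _, Or.inr ⟨c, Or.inl rfl⟩, rfl, rfl⟩ ih

theorem mem_red (hz : ∀ r ∈ R, Z ∉ r.1) {u v : List α} (h : Red R u v) (hu : Z ∈ u) : Z ∈ v := by
  induction h with
  | refl => exact hu
  | tail _ s ih =>
    obtain ⟨p, q, x, y, h, rfl, rfl⟩ := s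
    have := hz _ h
    simp only [mem_append] at ih ⊢
    tauto

theorem wz_red (hz : ∀ r ∈ R, Z ∉ r.1) {u v : List α} (h : Red (wz R Z) u v) :
    Red R u v ∨ (Z ∈ v ∧ Dies R Z u) := by
  induction h with
  | refl => exact Or.inl .refl
  | tail _ s ih =>
    obtain ⟨p, q, x, y, h | ⟨c, h⟩, rfl, rfl⟩ := s
    · exact ih.imp (·.tail ⟨p, q, x, y, h, rfl, rfl⟩) fun h' =>
        ⟨mem_red hz (.single ⟨p, q, x, y, h, rfl, rfl⟩) h'.1, h'.2⟩
    · refine Or.inr ⟨?_, ih.elim (fun h' => ⟨_, h', ?_⟩) (·.2)⟩ <;>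
        rcases h with ⟨⟨⟩⟩ | ⟨⟨⟩⟩ <;> simp

theorem Dies.red (H : Confluent R) (hz : ∀ r ∈ R, Z ∉ r.1) {u v : List α} (h : Dies R Z u)
    (h' : Red R u v) : Dies R Z v :=
  let ⟨_, h1, h2⟩ := h
  let ⟨z, h3, h4⟩ := H _ _ _ h1 h'
  ⟨z, h4, mem_red hz h3 h2⟩

theorem Dies.z {u : List α} (h : Dies R Z u) : Red (wz R Z) u [Z] :=
  let ⟨_, h1, h2⟩ := h
  (red_wz h1).trans (red_z h2)

theorem wz_conf (H : Confluent R) (hz : ∀ r ∈ R, Z ∉ r.1) : Confluent (wz R Z) := by
  intro u v w h1 h2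
  rcases wz_red hz h1 with h1 | h1 <;> rcases wz_red hz h2 with h2 | h2
  · exact (H _ _ _ h1 h2).imp fun z h => ⟨red_wz h.1, red_wz h.2⟩
  · exact ⟨_, (h2.2.red H hz h1).z, red_z h2.1⟩
  · exact ⟨_, red_z h1.1, (h1.2.red H hz h2).z⟩
  · exact ⟨_, red_z h1.1, red_z h2.1⟩

theorem cls_wz (H : Confluent R) (hz : ∀ r ∈ R, Z ∉ r.1) {u v : List α}
    (h : cls (wz R Z) u = cls (wz R Z) v) (hu : ¬ Dies R Z u) : Join (Red R) u v := by
  obtain ⟨z, h1, h2⟩ := (cls_iff (wz_conf H hz)).1 h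
  have h3 := (wz_red hz h1).resolve_right fun h => hu h.2
  exact ⟨z, h3, (wz_red hz h2).resolve_right fun h => hu ⟨z, h3, h.1⟩⟩

theorem isz_iff (H : Confluent R) (hz : ∀ r ∈ R, Z ∉ r.1) {z : PresentedMonoid (rel (wz R Z))}
    (h : IsZero z) (u : List α) : cls (wz R Z) u = z ↔ Dies R Z u := by
  obtain ⟨v, rfl⟩ := cls_surj z
  have e : cls (wz R Z) v = cls _ [Z] := (h (cls _ [Z])).1.symm.trans (cls_red (red_z (by simp)))
  rw [e]
  refine ⟨fun h => by_contra fun hu => ?_, fun h => cls_red h.z⟩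
  obtain ⟨z, h1, h2⟩ := cls_wz H hz h hu
  exact hu ⟨z, h1, mem_red hz h2 (by simp)⟩

theorem isz : IsZero (cls (wz R Z) [Z]) := fun x => by
  obtain ⟨v, rfl⟩ := cls_surj x
  exact ⟨cls_red (red_z (by simp)), cls_red (red_z (by simp))⟩

theorem mem_P (H : Confluent R) (hz : ∀ r ∈ R, Z ∉ r.1) {a g : List α} (ha : ¬ Dies R Z a) :
    cls (wz R Z) g ∈ P (cls (wz R Z) a) ↔ ∀ m, Dies R Z (m ++ a ++ g) → Dies R Z (m ++ a) := by
  refine ⟨fun h m hm => (isz_iff H hz isz _).1 ((h _ isz).2 (fun e => ha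
    ((isz_iff H hz isz _).1 e)) (cls _ m) ((isz_iff H hz isz _).2 hm)), fun h z h1 =>
    ⟨fun e => absurd ((isz_iff H hz h1 _).1 e) ha, fun _ m hm => ?_⟩⟩
  obtain ⟨m, rfl⟩ := cls_surj m
  exact (isz_iff H hz h1 _).2 (h m ((isz_iff H hz h1 _).1 hm))

theorem loc {V T : List α → Prop} (hV : ∀ v v', V v → Step R v v' → V v')
    (hT : ∀ v v', T v → Step R v v' → T v')
    (h : ∀ p x y s t, (x ++ y, t) ∈ R → x ≠ [] → y ≠ [] → V (p ++ x) → ¬ T (y ++ s))
    {v t w : List α} (h1 : V v) (h2 : T t) (h3 : Red R (v ++ t) w) :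
    ∃ v' t', w = v' ++ t' ∧ Red R v v' ∧ Red R t t' := by
  suffices ∃ v' t', w = v' ++ t' ∧ Red R v v' ∧ Red R t t' ∧ V v' ∧ T t' from
    let ⟨a, b, c, d, e, _⟩ := this
    ⟨a, b, c, d, e⟩
  induction h3 with
  | refl => exact ⟨v, t, rfl, .refl, .refl, h1, h2⟩
  | tail _ s ih =>
    obtain ⟨v', t', rfl, a1, a2, a3, a4⟩ := ih
    obtain ⟨p, q, x, y, hr, e, rfl⟩ := s
    have k : ∀ s, t' = s ++ x ++ q → p = v' ++ s → ∃ v'' t'', p ++ y ++ q = v'' ++ t'' ∧
        Red R v v'' ∧ Red R t t'' ∧ V v'' ∧ T t'' := fun s e1 e2 =>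
      have st : Step R t' (s ++ y ++ q) := ⟨s, q, x, y, hr, e1, rfl⟩
      ⟨v', _, by simp [e2], a1, a2.tail st, a3, hT _ _ a4 st⟩
    have k' : ∀ s, v' = p ++ x ++ s → q = s ++ t' → ∃ v'' t'', p ++ y ++ q = v'' ++ t'' ∧
        Red R v v'' ∧ Red R t t'' ∧ V v'' ∧ T t'' := fun s e1 e2 =>
      have st : Step R v' (p ++ y ++ s) := ⟨p, s, x, y, hr, e1, rfl⟩
      ⟨_, t', by simp [e2], a1.tail st, a2, hV _ _ a3 st, a4⟩
    rcases append_eq_append_iff.1 e with ⟨s, e1, rfl⟩ | ⟨s, e1, e2⟩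
    · rcases append_eq_append_iff.1 e1 with ⟨s', rfl, rfl⟩ | ⟨s', e2, rfl⟩
      · by_cases c1 : s' = []
        · exact k [] (by simp [c1]) (by simp [c1])
        · by_cases c2 : s = []
          · exact k' [] (by simp [c2]) (by simp [c2])
          · exact absurd a4 (h _ _ _ _ _ hr c1 c2 a3)
      · exact k s' rfl e2
    · exact k' s e1 e2

theorem loc_dies {V T : List α → Prop} (hV : ∀ v v', V v → Step R v v' → V v')
    (hT : ∀ v v', T v → Step R v v' → T v')
    (h : ∀ p x y s t, (x ++ y, t) ∈ R → x ≠ [] → y ≠ [] → V (p ++ x) → ¬ T (y ++ s))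
    {v t : List α} (h1 : V v) (h2 : T t) (h3 : Dies R Z (v ++ t)) : Dies R Z v ∨ Dies R Z t := by
  obtain ⟨w, h4, h5⟩ := h3
  obtain ⟨v', t', rfl, a, b⟩ := loc hV hT h h1 h2 h4
  exact (mem_append.1 h5).imp (⟨_, a, ·⟩) (⟨_, b, ·⟩)

theorem red_len (hl : ∀ r ∈ R, r.2.length < r.1.length) {u v : List α} (h : Red R u v) :
    u = v ∨ v.length < u.length := by
  induction h with
  | refl => exact Or.inl rfl
  | tail _ s ih =>
    obtain ⟨p, q, x, y, h, rfl, rfl⟩ := s
    have := hl _ h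
    right
    rcases ih with rfl | ih <;> simp only [length_append] at * <;> omega

theorem nf (hl : ∀ r ∈ R, r.2.length < r.1.length) (u : List α) :
    ∃ v, Red R u v ∧ ∀ w, Red R v w → v = w := by
  induction h : u.length using Nat.strong_induction_on generalizing u with
  | _ n ih =>
    by_cases h1 : ∀ w, Red R u w → u = w
    · exact ⟨u, .refl, h1⟩
    · push Not at h1
      obtain ⟨w, h2, h3⟩ := h1
      obtain ⟨v, h4, h5⟩ := ih _ (h ▸ (red_len hl h2).resolve_left h3) w rfl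
      exact ⟨v, h2.trans h4, h5⟩

end Pool.Agent.H.MP_a5b0d0_al
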