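import Pool.Agent.H.MP_a5b0d0_al.A

namespace Pool.Agent.H.MP_a5b0d0_al

open Relation List

inductive Lt (S T : Type) : Type
  | Z | A | M | B | y | H
  | lr (s : S)
  | rl (t : T)

open Lt

structure Mc (S T : Type) where
  F : ℕ
  U : T → ℕ
  V : T → ℕ
  nx : T → S
  sc : S → S
  act : S → Bool → T
  acc : S → Prop
  t0 : T
  hF : 1 < F
  hV : ∀ t, V t < U t

variable {S T : Type} (m : Mc S T)

inductive Rho : List (Lt S T) → Lt S T → List (Lt S T) → List (Lt S T) → Prop
  | st : Rho [A] H [] [rl m.t0]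
  | rl t : Rho (replicate (m.U t) A) (rl t) [] (rl t :: replicate (m.V t) B)
  | tl t : Rho [M, M, M] (rl t) [] [M, A, lr (m.nx t)]
  | lr s : Rho [] (lr s) (replicate m.F B) [A, lr (m.sc s)]
  | tj s : Rho [A] (lr s) [y] [rl (m.act s true)]
  | te s : ¬ m.acc s → Rho [A] (lr s) [H] [rl (m.act s false), H]
  | ac s : m.acc s → Rho [A] (lr s) [H] [Z]

def RR : Set (List (Lt S T) × List (Lt S T)) := {r | ∃ l q t, Rho m l q t r.2 ∧ r.1 = l ++ q :: t}

def ty : Lt S T → ℕ
  | A | M => 0
  | B | y => 1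
  | H => 2
  | lr _ | rl _ => 3
  | Z => 4

variable {m}

theorem Rho.typ {l t z : List (Lt S T)} {q : Lt S T} (h : Rho m l q t z) :
    (∀ c ∈ l, ty c = 0) ∧ (ty q = 2 ∨ ty q = 3) ∧ (∀ c ∈ t, ty c = 1 ∨ ty c = 2) ∧
      (l = [] → ty q = 3) ∧ (q = H → l = [A]) := by
  cases h <;> simp [ty]

theorem split {α : Type} {l r l' r' : List α} {q q' : α} (h : l ++ q :: r = l' ++ q' :: r') :
    (l = l' ∧ q = q' ∧ r = r') ∨ (∃ w, l' = l ++ q :: w ∧ r = w ++ q' :: r') ∨
      ∃ w, l = l' ++ q' :: w ∧ r' = w ++ q :: r := by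
  rcases append_eq_append_iff.1 h with ⟨_ | ⟨c, w⟩, rfl, e⟩ | ⟨_ | ⟨c, w⟩, rfl, e⟩ <;>
    simp_all

theorem rep_split {α : Type} {c : α} {u b : ℕ} {s w : List α} (hw : w.head? ≠ some c)
    (h : replicate u c ++ s = replicate b c ++ w) : ∃ k, b = u + k ∧ s = replicate k c ++ w := by
  induction u generalizing b with
  | zero => exact ⟨b, by simp, h⟩
  | succ u ih =>
    cases b with
    | zero => exact absurd (by simp [show w = _ from h.symm, replicate_succ]) hw
    | succ b =>
      obtain ⟨k, h1, h2⟩ := ih (cons.inj h).2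
      exact ⟨k, by omega, h2⟩

theorem rep_split' {α : Type} {c : α} {u b : ℕ} {s w : List α} (hw : w.getLast? ≠ some c)
    (h : s ++ replicate u c = w ++ replicate b c) : ∃ k, b = u + k ∧ s = w ++ replicate k c := by
  obtain ⟨k, h1, h2⟩ := rep_split (u := u) (b := b) (s := s.reverse) (w := w.reverse)
    (by simpa using hw) (by simpa using congrArg reverse h)
  exact ⟨k, h1, by simpa using congrArg reverse h2⟩

theorem Rho.det {l t z l' t' z' s w w' : List (Lt S T)} {q : Lt S T} (h : Rho m l q t z)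
    (h' : Rho m l' q t' z') (e : l = s ++ l') (e' : t ++ w = t' ++ w') :
    s = [] ∧ t = t' ∧ z = z' := by
  obtain ⟨F, hF⟩ : ∃ F, m.F = F + 1 := ⟨m.F - 1, by have := m.hF; omega⟩
  cases h <;> cases h' <;> simp_all [replicate_succ]
  · have := congrArg (M ∈ ·) e
    simp at this
  · have := congrArg (A ∈ ·) e
    simp [(m.hV _).ne_zero] at this

theorem orth : Orth (RR m) := by
  rintro _ z _ z' s w w' ⟨l, q, t, h, rfl⟩ ⟨l', q', t', h', rfl⟩ e hl
  obtain ⟨a1, a2, a3, a4, -⟩ := h.typ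
  obtain ⟨b1, b2, b3, b4, -⟩ := h'.typ
  rcases split (l := l) (q := q) (r := t ++ w) (l' := s ++ l') (q' := q') (r' := t' ++ w')
    (by simpa using e) with ⟨e1, rfl, e2⟩ | ⟨v, e1, e2⟩ | ⟨v, e1, -⟩
  · obtain ⟨rfl, rfl, e3⟩ := h.det h' e1 e2
    exact ⟨rfl, by simp [e1], e3⟩
  · exfalso
    obtain ⟨c, rfl, rfl⟩ : ∃ c, s = l ++ q :: c ∧ v = c ++ l' := by
      rcases append_eq_append_iff.1 e1 with ⟨a, rfl, e3⟩ | ⟨_ | ⟨c, a⟩, rfl, e3⟩
      · have := b1 q (by simp [e3])
        omega
      · have := b1 q (by rw [← nil_append l', ← e3]; simp)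
        omega
      · obtain ⟨rfl, rfl⟩ := cons.inj e3
        exact ⟨a, rfl, rfl⟩
    rw [append_assoc] at e2
    rcases append_eq_append_iff.1 e2 with ⟨a, rfl, -⟩ | ⟨_ | ⟨d, a⟩, rfl, e3⟩
    · simp at hl
    · simp at hl
    · have := a3 d (by simp)
      cases l' with
      | nil =>
        have := b4 rfl
        obtain rfl := (cons.inj e3).1
        omega
      | cons x l' =>
        have := b1 x (by simp)
        obtain rfl := (cons.inj e3).1
        omega
  · have := a1 q' (by simp [e1])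
    omega

theorem RR_len : ∀ r ∈ RR m, r.2.length < r.1.length := by
  rintro ⟨_, z⟩ ⟨l, q, t, h, rfl⟩
  have := m.hF
  cases h <;> simp [m.hV]
  exact this

theorem RR_z : ∀ r ∈ RR m, Z ∉ r.1 := by
  rintro ⟨_, z⟩ ⟨l, q, t, h, rfl⟩
  cases h <;> simp

def Adj (c d : Lt S T) : Prop :=
  (ty c = 0 ∨ ty d = 1 ∨ ty d = 2) ∧ (d = M → c = M) ∧ c ≠ H ∧ c ≠ Z

theorem adj {x v z : List (Lt S T)} (h : (x ++ v, z) ∈ RR m) (h1 : x ≠ []) (h2 : v ≠ []) (p s) :
    ∃ c d, (p ++ x).getLast? = some c ∧ (v ++ s).head? = some d ∧ Adj c d := by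
  obtain ⟨l, q, t, h, e⟩ := h
  have : IsChain Adj (l ++ q :: t) := by
    cases h with
    | rl t =>
      induction m.U t with
      | zero => simp
      | succ k ih => cases k <;> simp_all [replicate_succ, Adj, ty]
    | lr s =>
      have : ∀ k c, c = lr s ∨ c = B → IsChain Adj (c :: replicate k (B : Lt S T)) := fun k => by
        induction k with
        | zero => simp
        | succ k ih => rintro _ (rfl | rfl) <;> simp [replicate_succ, Adj, ty, ih]
      exact this _ _ (Or.inl rfl)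
    | _ => simp [Adj, ty]
  obtain ⟨x, c, rfl⟩ := (eq_nil_or_concat' x).resolve_left h1
  obtain ⟨d, v, rfl⟩ := exists_cons_of_ne_nil h2
  rw [← e] at this
  exact ⟨c, d, by simp, by simp, (isChain_append.1 this).2.2 c (by simp) d (by simp)⟩

theorem st_last {v w : List (Lt S T)} (h : Step (RR m) v w) :
    w.getLast? = v.getLast? ∨ ∃ c, w.getLast? = some c ∧ ty c ≠ 0 := by
  obtain ⟨p, q, _, z, ⟨l, c, t, h, rfl⟩, rfl, rfl⟩ := h
  rcases eq_nil_or_concat' q with rfl | ⟨q, d, rfl⟩
  · right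
    cases h with
    | rl t => cases m.V t <;> simp [ty, getLast?_append, getLast?_cons, getLast?_replicate]
    | _ => simp [ty]
  · simp [← append_assoc]

theorem one {v : List (Lt S T)} (h1 : Z ∉ v) (h2 : v.countP (2 ≤ ty ·) ≤ 1) : ¬ Dies (RR m) Z v := by
  rintro ⟨w, h3, h4⟩
  refine (show Z ∉ w ∧ w.countP (2 ≤ ty ·) ≤ 1 from ?_).1 h4
  clear h4
  induction h3 with
  | refl => exact ⟨h1, h2⟩
  | tail _ s ih =>
    obtain ⟨p, q, _, z, ⟨l, c, t, h, rfl⟩, rfl, rfl⟩ := s
    cases h <;> simp_all [ty, countP_replicate] <;> omega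

theorem locB {v t : List (Lt S T)} (hv : v.getLast? ≠ some A) (h : Dies (RR m) Z (v ++ [H] ++ t)) :
    Dies (RR m) Z (v ++ [H]) ∨ Dies (RR m) Z t := by
  refine loc_dies (V := fun w => ∃ v c, w = v ++ [c] ∧ (c = H ∧ v.getLast? ≠ some A ∨ c = Z))
    (T := fun _ => True) ?_ (fun _ _ _ _ => trivial) ?_ ⟨v, H, rfl, Or.inl ⟨rfl, hv⟩⟩ trivial h
  · rintro _ _ ⟨v, c, rfl, hc⟩ ⟨p, q, x, z, h, e, rfl⟩
    rcases eq_nil_or_concat' q with rfl | ⟨q, d, rfl⟩
    · obtain ⟨l, d, t, h, rfl⟩ := h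
      obtain ⟨F, hF⟩ : ∃ F, m.F = F + 1 := ⟨m.F - 1, by have := m.hF; omega⟩
      replace e := congrArg reverse e
      rw [← head?_reverse] at hc
      cases h with
      | te s => exact ⟨p ++ [rl (m.act s false)], H, by simp, by simp⟩
      | ac s => exact ⟨p, Z, by simp, by simp⟩
      | _ => rcases hc with ⟨rfl, hc⟩ | rfl <;> simp_all [replicate_succ']
    · rw [← append_assoc] at e
      obtain ⟨rfl, e2⟩ := append_inj' e rfl
      obtain rfl := (cons.inj e2).1
      refine ⟨p ++ z ++ q, c, by simp, hc.imp_left fun h' => ⟨h'.1, ?_⟩⟩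
      rcases st_last (m := m) ⟨p, q, x, z, h, rfl, rfl⟩ with e | ⟨c, e, hc⟩ <;> rw [e]
      · exact h'.2
      · rintro ⟨⟩
        exact hc rfl
  · rintro p x v s z h h1 h2 ⟨w, c, e, hc⟩ -
    obtain ⟨c', d, a1, -, -, -, a2, a3⟩ := adj h h1 h2 p s
    rw [e] at a1
    simp_all

theorem locA {v t : List (Lt S T)} (hv : ∀ c ∈ v.getLast?, ty c ≠ 0) (h : Dies (RR m) Z (v ++ A :: t)) :
    Dies (RR m) Z v ∨ Dies (RR m) Z (A :: t) := by
  refine loc_dies (V := fun w => ∀ c ∈ w.getLast?, ty c ≠ 0)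
    (T := fun w => ∀ c ∈ w.head?, ty c ≠ 1 ∧ ty c ≠ 2) ?_ ?_ ?_ hv (by simp [ty]) h
  · intro v w h s
    rcases st_last s with e | ⟨c, e, hc⟩ <;> simp_all
  · rintro _ _ hw ⟨_ | ⟨c, p⟩, q, _, z, ⟨l, d, t, h, rfl⟩, rfl, rfl⟩
    · cases h <;> simp [ty]
    · simpa using hw
  · intro p x v s z h h1 h2 h3 h4
    obtain ⟨c', d, a1, a2, a3, -⟩ := adj h h1 h2 p s
    have := h3 _ a1
    have := h4 _ a2
    omega

theorem locC {v t : List (Lt S T)} (hv : v.getLast? ≠ some M) (h : Dies (RR m) Z (v ++ M :: t)) :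
    Dies (RR m) Z v ∨ Dies (RR m) Z (M :: t) := by
  refine loc_dies (V := fun w => w.getLast? ≠ some M)
    (T := fun w => w.head? = some M) ?_ ?_ ?_ hv rfl h
  · intro v w h s
    rcases st_last s with e | ⟨c, e, hc⟩ <;> rw [e]
    · exact h
    · rintro ⟨⟩
      exact hc rfl
  · rintro _ _ hw ⟨_ | ⟨c, p⟩, q, _, z, ⟨l, d, t, h, rfl⟩, rfl, rfl⟩
    · cases h with
      | rl t => cases h : m.U t <;> simp [h, replicate_succ] at hw
      | _ => simp at hw ⊢
    · simpa using hw
  · intro p x v s z h h1 h2 h3 h4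
    obtain ⟨c', d, a1, a2, -, a3, -⟩ := adj h h1 h2 p s
    simp_all

theorem strip {α : Type} (c : α) (v : List α) :
    ∃ w k, v = w ++ replicate k c ∧ w.getLast? ≠ some c := by
  induction v using reverseRecOn with
  | nil => exact ⟨[], 0, rfl, by simp⟩
  | append_singleton v d ih =>
    by_cases h : d = c
    · obtain ⟨w, k, rfl, h1⟩ := ih
      exact ⟨w, k + 1, by simp [h, replicate_succ'], h1⟩
    · exact ⟨v ++ [d], 0, by simp, by simpa using h⟩

def W (t a : ℕ) (q : Lt S T) (b j : ℕ) : List (Lt S T) :=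
  replicate t M ++ replicate a A ++ q :: (replicate b B ++ replicate j y ++ [H])

theorem conj_iff (n : ℕ) : CConj (cls (wz (RR m) Z) (H :: replicate (n + 1) y))
    (cls (wz (RR m) Z) (replicate (n + 1) y ++ [H])) ↔
      ∀ t N, ¬ Dies (RR m) Z (W t N H 0 (n + 1)) := by
  have C := (orth (m := m)).conf
  have ha : ¬ Dies (RR m) Z (H :: replicate (n + 1) y) := one (by simp) (by simp [ty])
  have hb : ¬ Dies (RR m) Z (replicate (n + 1) y ++ [H]) :=
    one (by simp) (by simp [ty, countP_replicate])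
  constructor
  · rintro ⟨g, h1, -, -, h2, -⟩ t N h
    obtain ⟨g, rfl⟩ := cls_surj g
    obtain ⟨g', h3, h4⟩ := nf RR_len g
    rw [cls_red (red_wz h3)] at h1 h2
    rw [mem_P C RR_z ha] at h1
    obtain ⟨z, h5, h6⟩ := cls_wz C RR_z h2 fun h => ha (h1 [] h)
    have k : ∀ x z : List (Lt S T), (x, z) ∈ RR m → ∀ c ∈ x.head?, c ∉ H :: replicate (n + 1) y := by
      rintro _ z ⟨l, q, t, h, rfl⟩ c hc h1
      obtain ⟨a1, -, -, a2, -⟩ := h.typ
      have : ty c = 1 ∨ ty c = 2 := by
        rcases mem_cons.1 h1 with rfl | h1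
        · exact Or.inr rfl
        · exact Or.inl (eq_of_mem_replicate h1 ▸ rfl)
      cases l with
      | nil =>
        have := a2 rfl
        obtain rfl : q = c := by simpa using hc
        omega
      | cons d l =>
        have := a1 d (by simp)
        obtain rfl : d = c := by simpa using hc
        omega
    have k1 : ∀ w, ¬ Step (RR m) (H :: replicate (n + 1) y) w := by
      rintro _ ⟨p, q, _ | ⟨c, x⟩, z, h, e, rfl⟩
      · simpa using RR_len _ h
      · exact k _ _ h c rfl (by simp [e])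
    obtain ⟨a', g'', rfl, h7, h8⟩ := loc (V := (· = H :: replicate (n + 1) y)) (T := fun _ => True)
      (fun v w e s => (k1 w (e ▸ s)).elim) (fun _ _ _ _ => trivial)
      (fun p x v s z h h1 _ e _ => by
        obtain ⟨c, x, rfl⟩ := exists_cons_of_ne_nil h1
        exact k _ _ h c rfl (by simp [← e])) rfl trivial h5
    obtain rfl := h4 _ h8
    obtain rfl := (h7.cases_head.resolve_right fun ⟨w, s, _⟩ => k1 w s)
    have e := (red_len RR_len h6).resolve_right (by simp; omega)
    obtain ⟨g, rfl⟩ : ∃ g, g' = H :: g := by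
      cases g' with
      | nil => simp [replicate_succ] at e
      | cons c g => exact ⟨g, by rw [(cons.inj e).1]⟩
    exact one (by simp) (by simp [ty, countP_replicate])
      (h1 (replicate t M ++ replicate N A) (by simpa [W] using h.ctx [] g))
  · intro h
    refine ⟨cls _ [H], (mem_P C RR_z ha).2 fun v hv => ?_, cls _ (replicate (n + 1) y),
      (mem_P C RR_z hb).2 fun v hv => ?_, rfl, by simp [cls_mul]⟩
    · obtain ⟨v, N, rfl, h1⟩ := strip A v
      obtain ⟨v, t, rfl, h2⟩ := strip M v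
      have k : Dies (RR m) Z v → Dies (RR m) Z
          (v ++ replicate t M ++ replicate N A ++ H :: replicate (n + 1) y) := fun h => by
        simpa using h.ctx [] _
      cases t with
      | succ t =>
        exact k ((locC h2 (by simpa [replicate_succ (n := t)] using hv)).resolve_right
          (by simpa [W, replicate_succ (n := t)] using h (t + 1) N))
      | zero =>
        cases N with
        | zero =>
          simpa using ((locB (t := replicate (n + 1) y ++ [H]) h1
            (by simpa using hv)).resolve_right hb).ctx [] (replicate (n + 1) y)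
        | succ N =>
          refine k ((locA (fun c hc => ?_)
            (by simpa [replicate_succ (n := N)] using hv)).resolve_right
            (by simpa [W, replicate_succ (n := N)] using h 0 (N + 1)))
          cases c <;> simp_all [ty]
    · rw [← append_assoc] at hv ⊢
      exact (locB (by simp [replicate_succ', ← append_assoc]) hv).resolve_right
        (one (by simp) (by simp [ty, countP_replicate]))

end Pool.Agent.H.MP_a5b0d0_al
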