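import Pool.Agent.H.MP_a5b0d0_al.B
import Pool.Agent.Lib.helper21.Queue

namespace Pool.Agent.H.MP_a5b0d0_al

open Relation List Lt Pool.Agent.Lib.helper21 While Mach

variable {S T : Type} {m : Mc S T}

theorem step_W {t a b j : ℕ} {q : Lt S T} {w : List (Lt S T)} (hq : ty q = 2 ∨ ty q = 3)
    (h : Step (RR m) (W t a q b j) w) :
    (q = H ∧ ∃ a', w = W t a' (rl m.t0) b j) ∨
    (∃ s a', q = rl s ∧ a = m.U s + a' ∧ w = W t a' q (m.V s + b) j) ∨
    (∃ s t', q = rl s ∧ a = 0 ∧ w = W t' 1 (lr (m.nx s)) b j) ∨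
    (∃ s b', q = lr s ∧ b = m.F + b' ∧ w = W t (a + 1) (lr (m.sc s)) b' j) ∨
    ∃ s a', q = lr s ∧ a = a' + 1 ∧ b = 0 ∧ ((j = 0 ∧ m.acc s) ∨
      w = W t a' (rl (m.act s (decide (j ≠ 0)))) 0 (j - 1)) := by
  obtain ⟨p, u, _, z, ⟨l, c, r, h, rfl⟩, e, rfl⟩ := h
  obtain ⟨a1, a2, a3, -, a4⟩ := h.typ
  obtain ⟨e1, rfl, e2⟩ : replicate t M ++ replicate a A = p ++ l ∧ q = c ∧
      replicate b B ++ (replicate j y ++ [H]) = r ++ u := by
    rcases split (l := replicate t M ++ replicate a A) (q := q) (l' := p ++ l) (q' := c)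
      (r := replicate b B ++ (replicate j y ++ [H])) (r' := r ++ u) (by simpa [W] using e) with
      h | ⟨v, e1, e2⟩ | ⟨v, e1, -⟩
    · exact h
    · have k : ∀ d ∈ v ++ c :: (r ++ u), d = B ∨ d = y ∨ d = H := by
        rw [← e2]
        simp only [mem_append, mem_replicate, mem_singleton]
        tauto
      obtain rfl : c = H := by rcases k c (by simp) with rfl | rfl | rfl <;> simp [ty] at a2 ⊢
      rw [a4 rfl] at e1
      have : A ∈ q :: v := mem_of_getLast? (by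
        simpa [getLast?_append] using (congrArg getLast? e1).symm)
      rcases mem_cons.1 this with rfl | h
      · simp [ty] at hq
      · simpa using k A (by simp [h])
    · have : c ∈ replicate t (M : Lt S T) ++ replicate a A := by simp [e1]
      simp only [mem_append, mem_replicate] at this
      rcases this with ⟨-, rfl⟩ | ⟨-, rfl⟩ <;> simp [ty] at a2
  have kA : ∀ U, l = replicate U A → ∃ k, a = U + k ∧ p = replicate t M ++ replicate k A :=
    fun U h => rep_split' (by simp [getLast?_replicate]) (h ▸ e1.symm)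
  cases h with
  | st =>
    obtain ⟨k, -, rfl⟩ := kA 1 rfl
    exact Or.inl ⟨rfl, k, by simp [W, e2]⟩
  | rl s =>
    obtain ⟨k, h, rfl⟩ := kA _ rfl
    exact Or.inr (Or.inl ⟨s, k, rfl, h, by simp [W, replicate_add, e2, -replicate_append_replicate]⟩)
  | tl s =>
    obtain rfl : a = 0 := by
      have := congrArg getLast? e1
      cases a with
      | zero => rfl
      | succ a => simp [getLast?_append, getLast?_replicate] at this
    obtain ⟨k, -, rfl⟩ := rep_split' (w := []) (u := 3) (b := t) (c := M) (s := p) (by simp)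
      (by simpa using e1.symm)
    exact Or.inr (Or.inr (Or.inl ⟨s, k + 1, rfl, rfl, by simp [W, replicate_succ', e2]⟩))
  | lr s =>
    obtain ⟨k, h, rfl⟩ := rep_split (by cases j <;> simp [replicate_succ]) e2.symm
    rw [append_nil] at e1
    exact Or.inr (Or.inr (Or.inr (Or.inl ⟨s, k, rfl, h, by simp [W, replicate_succ', ← e1]⟩)))
  | tj s =>
    obtain ⟨k, h, rfl⟩ := kA 1 rfl
    refine Or.inr (Or.inr (Or.inr (Or.inr ⟨s, k, rfl, by omega, ?_⟩)))
    cases b <;> cases j <;> simp_all [W, replicate_succ]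
  | te s hs =>
    obtain ⟨k, h, rfl⟩ := kA 1 rfl
    refine Or.inr (Or.inr (Or.inr (Or.inr ⟨s, k, rfl, by omega, ?_⟩)))
    cases b <;> cases j <;> simp_all [W, replicate_succ]
  | ac s hs =>
    obtain ⟨k, h, rfl⟩ := kA 1 rfl
    refine Or.inr (Or.inr (Or.inr (Or.inr ⟨s, k, rfl, by omega, ?_⟩)))
    cases b <;> cases j <;> simp_all [W, replicate_succ]

theorem stp {l r z : List (Lt S T)} {q : Lt S T} (h : Rho m l q r z) (p u) {v w}
    (e1 : v = p ++ (l ++ q :: r) ++ u) (e2 : w = p ++ z ++ u) : Red (RR m) v w :=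
  .single ⟨p, u, _, _, ⟨l, q, r, h, rfl⟩, e1, e2⟩

theorem mRL (t : ℕ) (s : T) (k b j : ℕ) :
    Red (RR m) (W (t + 3) (m.U s * k) (rl s) b j) (W (t + 1) 1 (lr (m.nx s)) (m.V s * k + b) j) := by
  induction k generalizing b with
  | zero =>
    exact stp (.tl s) (replicate t M) _ (by simp [W, replicate_succ']; rfl)
      (by simp [W, replicate_succ'])
  | succ k ih =>
    refine .trans (stp (.rl s) (replicate (t + 3) M ++ replicate (m.U s * k) A)
      (replicate b B ++ replicate j y ++ [H]) ?_ ?_)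
      (by simpa only [Nat.mul_succ, Nat.add_assoc] using ih (m.V s + b)) <;>
    simp only [W, Nat.mul_succ, replicate_add, append_assoc, cons_append, nil_append]

theorem mLR (t : ℕ) (s : S) (k a j : ℕ) :
    Red (RR m) (W t a (lr s) (m.F * k) j) (W t (a + k) (lr (m.sc^[k] s)) 0 j) := by
  induction k generalizing a s with
  | zero => exact .refl
  | succ k ih =>
    refine .trans (stp (.lr s) (replicate t M ++ replicate a A)
      (replicate (m.F * k) B ++ replicate j y ++ [H]) ?_ ?_)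
      (by simpa only [Nat.add_assoc, Nat.add_comm 1, Function.iterate_succ_apply] using
        ih (m.sc s) (a + 1))
    · simp only [W, Nat.mul_succ, Nat.add_comm _ m.F, replicate_add, append_assoc, cons_append,
        nil_append]
    · simp [W, replicate_succ']

theorem mac (t : ℕ) (s : S) (N j k : ℕ) (s' : T) (h : m.act (m.sc^[N] s) (decide (j ≠ 0)) = s')
    (h1 : j = 0 → ¬ m.acc (m.sc^[N] s)) (h2 : N = m.U s' * k) :
    Red (RR m) (W (t + 3) 1 (lr s) (m.F * N) j) (W (t + 1) 1 (lr (m.nx s')) (m.V s' * k) (j - 1)) := by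
  refine (mLR _ s N 1 j).trans (.trans ?_ (mRL t s' k 0 (j - 1)))
  rw [← h2, ← h, Nat.add_comm 1]
  cases j with
  | zero =>
    exact stp (.te _ (h1 rfl)) (replicate (t + 3) M ++ replicate N A) []
      (by simp [W, replicate_succ' (n := N)]) (by simp [W])
  | succ j =>
    exact stp (.tj (m.sc^[N] s)) (replicate (t + 3) M ++ replicate N A) (replicate j y ++ [H])
      (by simp [W, replicate_succ' (n := N), replicate_succ (n := j)]) (by simp [W])

theorem Dies.of_red {α : Type} {R : Set (List α × List α)} {Z : α} {u v : List α} (h : Red R u v)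
    (h' : Dies R Z v) : Dies R Z u :=
  let ⟨w, h1, h2⟩ := h'
  ⟨w, h.trans h1, h2⟩

theorem inv (G : S → ℕ → ℕ → Prop) (n : ℕ) (h0 : ∀ k, G (m.nx m.t0) k n)
    (hG : ∀ s N j, G s N j → (j = 0 → ¬ m.acc (m.sc^[N] s)) ∧ ∀ s' k k',
      m.act (m.sc^[N] s) (decide (j ≠ 0)) = s' → N = m.U s' * k → m.V s' * k = m.F * k' →
        G (m.nx s') k' (j - 1)) (t N : ℕ) : ¬ Dies (RR m) Z (W t N H 0 n) := by
  rintro ⟨w, h1, h2⟩
  have : ∃ t a q b j, w = W t a q b j ∧ ((q = H ∧ j = n) ∨ (∃ s, q = rl s ∧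
      ∀ k k', a = m.U s * k → m.V s * k + b = m.F * k' → G (m.nx s) k' j) ∨
      ∃ s a', q = lr (m.sc^[a'] s) ∧ a = a' + 1 ∧ ∀ k, b = m.F * k → G s (a' + k) j) := by
    clear h2
    induction h1 with
    | refl => exact ⟨_, _, _, _, _, rfl, Or.inl ⟨rfl, rfl⟩⟩
    | tail _ s ih =>
      obtain ⟨t, a, q, b, j, rfl, ih⟩ := ih
      rcases step_W (by rcases ih with ⟨rfl, -⟩ | ⟨_, rfl, -⟩ | ⟨_, _, rfl, -⟩ <;> simp [ty]) s with
        ⟨rfl, a', rfl⟩ | ⟨s, a', rfl, rfl, rfl⟩ | ⟨s, t', rfl, rfl, rfl⟩ | ⟨s, b', rfl, rfl, rfl⟩ |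
        ⟨s, a', rfl, rfl, rfl, h⟩ <;>
      rcases ih with ⟨⟨⟩, rfl⟩ | ⟨_, ⟨⟩, ih⟩ | ⟨s, a, ⟨⟩, e, ih⟩
      · exact ⟨_, _, _, _, _, rfl, Or.inr (Or.inl ⟨_, rfl, fun _ _ _ _ => h0 _⟩)⟩
      · exact ⟨_, _, _, _, _, rfl, Or.inr (Or.inl ⟨_, rfl, fun k k' h1 h2 =>
          ih (k + 1) k' (by rw [h1]; ring) (by rw [← h2]; ring)⟩)⟩
      · exact ⟨_, _, _, _, _, rfl, Or.inr (Or.inr ⟨_, 0, rfl, rfl, fun k h =>
          (zero_add k).symm ▸ ih 0 k rfl (by simpa using h)⟩)⟩
      · exact ⟨_, _, _, _, _, rfl, Or.inr (Or.inr ⟨_, a + 1, by rw [Function.iterate_succ_apply'],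
          by omega, fun k h => by
            simpa only [Nat.add_assoc, Nat.add_comm 1] using ih (k + 1) (by rw [h]; ring)⟩)⟩
      · obtain rfl : a' = a := by omega
        obtain ⟨h3, h4⟩ := hG _ a' j (ih 0 rfl)
        rcases h with h | rfl
        · exact absurd h.2 (h3 h.1)
        · exact ⟨_, _, _, _, _, rfl, Or.inr (Or.inl ⟨_, rfl, fun k k' => h4 _ k k' rfl⟩)⟩
  obtain ⟨t, a, q, b, j, rfl, h⟩ := this
  rcases h with ⟨rfl, -⟩ | ⟨_, rfl, -⟩ | ⟨_, _, rfl, -⟩ <;> simp [W] at h2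

end Pool.Agent.H.MP_a5b0d0_al
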