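import Pool.Agent.H.MP_a5b0d0_al.C

namespace Pool.Agent.H.MP_a5b0d0_al

open Relation Lt Pool.Agent.Lib.helper21 While Mach Function

variable {Q : Type} [Fintype Q] (C : CM Q) (q0 : Q)

def rg (o : Option Q) : ℕ := o.elim 0 C.reg

noncomputable def pr (o : Option Q) : ℕ := Nat.nth Nat.Prime (rg C o)

noncomputable def PP : ℕ := ∏ o, pr C o

omit [Fintype Q] in
theorem pr_p (o : Option Q) : (pr C o).Prime := Nat.prime_nth_prime _

theorem pr_dvd (o : Option Q) : pr C o ∣ PP C := Finset.dvd_prod_of_mem _ (Finset.mem_univ o)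

theorem PP_pos : 0 < PP C := Finset.prod_pos fun o _ => (pr_p C o).pos

noncomputable def tb (q : Q) (i : ZMod (PP C)) : Bool := decide (¬ pr C (some q) ∣ i.val)

noncomputable def mc : Mc ((Q ⊕ Fin 3) × ZMod (PP C)) (Option Bool × Option Q × (Q ⊕ Fin 3)) where
  F := PP C + 1
  U t := if t.1 = some false then pr C t.2.1 else PP C + 1
  V t := if t.1 = some true then pr C t.2.1 else 1
  nx t := (t.2.2, 0)
  sc s := (s.1, s.2 + 1)
  act s b := match s.1 with
    | .inl q => (C.eff q (tb C q s.2), some q, (C.nxt q (tb C q s.2)).elim (.inr 2) .inl)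
    | .inr i => if i = 0 ∧ ∀ o, ¬ pr C o ∣ s.2.val then (none, none, .inr 1) else
        if i = 1 then if b then (some true, none, .inr 1) else (none, none, .inl q0)
        else (none, none, .inr 2)
  acc s := ∃ q, s.1 = .inl q ∧ C.nxt q (tb C q s.2) = none
  t0 := (none, none, .inr 0)
  hF := Nat.succ_lt_succ (PP_pos C)
  hV := fun ⟨e, o, _⟩ => by
    have h1 := (pr_p C o).one_lt
    have h2 := Nat.le_of_dvd (PP_pos C) (pr_dvd C o)
    rcases e with _ | _ | _ <;> simp <;> omega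

theorem sc_it (k : Q ⊕ Fin 3) (N : ℕ) : (mc C q0).sc^[N] (k, 0) = (k, (N : ZMod (PP C))) := by
  induction N with
  | zero => simp
  | succ N ih => rw [iterate_succ_apply', ih, Nat.cast_succ]; rfl

theorem dvd_val (o : Option Q) (N : ℕ) : pr C o ∣ (N : ZMod (PP C)).val ↔ pr C o ∣ N := by
  rw [ZMod.val_natCast, Nat.dvd_mod_iff (pr_dvd C o)]

def Rep (N : ℕ) (s : St) : Prop := N ≠ 0 ∧ ∀ o, N.factorization (pr C o) = s (rg C o)

variable {C}

theorem repF {k : ℕ} {s : St} : Rep C ((PP C + 1) * k) s ↔ Rep C k s := by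
  refine and_congr_left' (by simp) |>.trans (and_congr_right fun hk => forall_congr' fun o => ?_)
  rw [Nat.factorization_mul (by simp) hk, Finsupp.add_apply, Nat.factorization_eq_zero_of_not_dvd
    fun h => (pr_p C o).not_dvd_one ((Nat.dvd_add_right (pr_dvd C o)).1 h), zero_add]

omit [Fintype Q] in
theorem facP {k : ℕ} (hk : k ≠ 0) (o o' : Option Q) : (pr C o * k).factorization (pr C o') =
    k.factorization (pr C o') + if rg C o' = rg C o then 1 else 0 := by
  rw [Nat.factorization_mul (pr_p C o).ne_zero hk, Finsupp.add_apply, (pr_p C o).factorization,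
    Finsupp.single_apply, add_comm]
  simp only [pr, (Nat.nth_injective Nat.infinite_setOf_prime).eq_iff, eq_comm]

omit [Fintype Q] in
theorem rep_inc {k : ℕ} {s : St} (o : Option Q) (h : Rep C k s) :
    Rep C (pr C o * k) (update s (rg C o) (s (rg C o) + 1)) :=
  ⟨mul_ne_zero (pr_p C o).ne_zero h.1, fun o' => by
    rw [facP h.1, h.2, update_apply]
    split_ifs with h <;> simp [h]⟩

omit [Fintype Q] in
theorem rep_dec {k : ℕ} {s : St} (o : Option Q) (h : Rep C (pr C o * k) s) :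
    Rep C k (update s (rg C o) (s (rg C o) - 1)) :=
  have hk := right_ne_zero_of_mul h.1
  ⟨hk, fun o' => by
    have := h.2 o'
    rw [facP hk] at this
    rw [update_apply]
    split_ifs at this ⊢ with h
    · rw [← h, ← this]
      rfl
    · exact this⟩

omit [Fintype Q] in
theorem rep_dvd {N : ℕ} {s : St} (h : Rep C N s) (o : Option Q) : pr C o ∣ N ↔ s (rg C o) ≠ 0 := by
  rw [(pr_p C o).dvd_iff_one_le_factorization h.1, h.2, Nat.one_le_iff_ne_zero]

theorem tb_eq {N : ℕ} {s : St} (h : Rep C N s) (q : Q) : tb C q N = C.tst 0 (q, s) := by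
  simp [tb, dvd_val, rep_dvd h, CM.tst, CM.thr, rg, -ZMod.val_natCast]

theorem back {N k k' : ℕ} {s : St} (h : Rep C N s) (t : Option Bool × Option Q × (Q ⊕ Fin 3))
    (h1 : N = (mc C q0).U t * k) (h2 : (mc C q0).V t * k = (mc C q0).F * k') :
    Rep C k' (app t.1 (rg C t.2.1) s) := by
  obtain ⟨_ | _ | _, o, x⟩ := t <;> simp only [mc, app] at * <;> simp at h1 h2 <;> subst h1 <;>
    rw [← repF, ← h2]
  · exact repF.1 h
  · exact rep_dec o h
  · exact rep_inc o (repF.1 h)

theorem fwd {N : ℕ} {s : St} (h : Rep C N s) (t : Option Bool × Option Q × (Q ⊕ Fin 3))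
    (h1 : t.1 = some false → s (rg C t.2.1) ≠ 0) : ∃ N', Rep C N' (app t.1 (rg C t.2.1) s) ∧
      ∀ c, ∃ k, (PP C + 1) * (c * N) = (mc C q0).U t * k ∧ (mc C q0).V t * k = c * N' := by
  obtain ⟨_ | _ | _, o, x⟩ := t
  · exact ⟨N, h, fun c => ⟨c * N, rfl, one_mul _⟩⟩
  · obtain ⟨N, rfl⟩ := (rep_dvd h o).2 (h1 rfl)
    exact ⟨_, repF.2 (rep_dec o h), fun c => ⟨c * ((PP C + 1) * N), by simp [mc]; ring, one_mul _⟩⟩
  · exact ⟨_, rep_inc o h, fun c => ⟨c * N, rfl, by simp [mc]; ring⟩⟩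

def EE (k : Q ⊕ Fin 3) (j : ℕ) (s : St) : Prop := ∃ T, ∀ N, Rep C N s → ∃ t,
  Dies (RR (mc C q0)) Z (W (t + 1) 1 (lr (k, 0)) ((PP C + 1) * ((PP C + 1) ^ T * N)) j)

theorem repT {N : ℕ} {s : St} (h : Rep C N s) (T : ℕ) : Rep C ((PP C + 1) ^ T * N) s := by
  induction T with
  | zero => simpa using h
  | succ T ih => rw [pow_succ', mul_assoc]; exact repF.2 ih

theorem EE.step {k : Q ⊕ Fin 3} {j : ℕ} {s : St} (t : Option Bool × Option Q × (Q ⊕ Fin 3))
    (h : ∀ N : ℕ, Rep C N s → (mc C q0).act (k, N) (decide (j ≠ 0)) = t ∧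
      (j = 0 → ¬ (mc C q0).acc (k, N))) (h1 : t.1 = some false → s (rg C t.2.1) ≠ 0)
    (h2 : EE (C := C) q0 t.2.2 (j - 1) (app t.1 (rg C t.2.1) s)) : EE (C := C) q0 k j s := by
  obtain ⟨T, h2⟩ := h2
  refine ⟨T + 2, fun N hN => ?_⟩
  obtain ⟨N', h3, h4⟩ := fwd q0 hN t h1
  obtain ⟨u, h5⟩ := h2 N' h3
  obtain ⟨c, h6, h7⟩ := h4 ((PP C + 1) * (PP C + 1) ^ T)
  obtain ⟨h8, h9⟩ := h _ (repT hN (T + 2))
  refine ⟨u + 2, .of_red (mac u (k, 0) _ j c t ?_ ?_ ?_) ?_⟩
  · rwa [sc_it]
  · rwa [sc_it]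
  · rw [← h6]
    ring
  · rwa [h7, mul_assoc]

theorem main (n : ℕ) : (∀ t N, ¬ Dies (RR (mc C q0)) Z (W t N H 0 (n + 1))) ↔
    ¬ Halts (C.step 0) (q0, init n) := by
  have i1 : ∀ i, app (some true) (rg C none) (init i) = init (i + 1) := fun i => by
    simp [app, init, rg]
  constructor
  · intro h h1
    have e1 : ∀ c, Halts (C.step 0) c → EE (C := C) q0 (.inl c.1) 0 c.2 := by
      intro c hc
      induction hc with
      | @stop c e =>
        refine ⟨0, fun N hN => ⟨0, .of_red (mLR (m := mc C q0) _ _ _ _ _) ?_⟩⟩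
        have : (mc C q0).acc (.inl c.1, N) := ⟨c.1, rfl, by simpa [CM.step, tb_eq hN] using e⟩
        exact ⟨[M] ++ List.replicate N A ++ [Z] ++ [], stp (.ac _ this) _ []
          (by simp [W, add_comm 1, List.replicate_succ', sc_it]) rfl, by simp⟩
      | @go c c' e _ ih =>
        obtain ⟨q, e1, rfl⟩ := Option.map_eq_some_iff.1 e
        refine .step q0 (C.eff c.1 (C.tst 0 c), some c.1, .inl q) (fun N hN => ?_) (fun h => ?_) ih
        · simp [mc, tb_eq hN, e1]
        · intro h1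
          have : C.tst 0 c = true := by simpa [CM.tst, CM.thr, rg] using h1
          exact C.nodec _ (this ▸ h)
    have e2 : ∀ j i, i + j = n → EE (C := C) q0 (.inr 1) j (init i) := fun j => by
      induction j with
      | zero =>
        rintro i rfl
        exact .step q0 (none, none, .inl q0) (by simp [mc]) (by simp) (e1 _ h1)
      | succ j ih =>
        intro i hi
        exact .step q0 (some true, none, .inr 1) (by simp [mc]) (by simp)
          (i1 i ▸ ih (i + 1) (by omega))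
    obtain ⟨T, e3⟩ : EE (C := C) q0 (.inr 0) (n + 1) (init 0) :=
      .step q0 (none, none, .inr 1) (fun N hN => by simp [mc, dvd_val, rep_dvd hN, init, -ZMod.val_natCast]) (by simp)
        (e2 n 0 (zero_add n))
    obtain ⟨t, e4⟩ := e3 1 ⟨one_ne_zero, by simp [init]⟩
    generalize (PP C + 1) * _ = k at e4
    have e5 : ∀ a, Red (RR (mc C q0)) (W (t + 3) (a + 1) H 0 (n + 1))
        (W (t + 3) a (rl (mc C q0).t0) 0 (n + 1)) := fun a =>
      stp .st (List.replicate (t + 3) M ++ List.replicate a A) (List.replicate (n + 1) y ++ [H])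
        (by simp [W, List.replicate_succ' (n := a)]) (by simp [W])
    exact h _ _ (.of_red (.trans (e5 _) (mRL t _ k 0 (n + 1))) (by simpa [mc] using e4))
  · intro h
    refine inv (fun s N j => s.2 = 0 ∧ match s.1 with
      | .inl q => j = 0 ∧ ∃ s, Rep C N s ∧ ¬ Halts (C.step 0) (q, s)
      | .inr i => (i = 0 → j = n + 1) ∧ (i = 1 → j ≤ n ∧ Rep C N (init (n - j)))) _
      (fun k => ⟨rfl, by simp [mc]⟩) ?_
    rintro ⟨q | i, _⟩ N j ⟨h0, h1⟩ <;> (dsimp only at h0 h1; subst h0; rw [sc_it])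
    · obtain ⟨rfl, s, h1, h2⟩ := h1
      cases e : C.nxt q (C.tst 0 (q, s)) with
      | none => exact absurd (.stop (by simp [CM.step, e])) h2
      | some q' =>
        refine ⟨by simp [mc, tb_eq h1, e], fun t k k' h3 h4 h5 => ⟨rfl, ?_⟩⟩
        have := back q0 h1 t h4 h5
        simp only [mc, tb_eq h1, e] at h3
        subst h3
        exact ⟨rfl, _, this, fun h => h2 (.go (by simp [CM.step, e, rg]) h)⟩
    · refine ⟨by simp [mc], fun t k k' h3 h4 h5 => ⟨rfl, ?_⟩⟩
      simp only [mc, dvd_val] at h3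
      split_ifs at h3 with a1 a2 a3 <;> subst h3
      · have : Rep C N (init 0) := ⟨fun h => a1.2 none (h ▸ dvd_zero _), fun o => by
          simp [init, Nat.factorization_eq_zero_of_not_dvd (a1.2 o)]⟩
        simpa [mc, h1.1 a1.1, app] using back q0 this _ h4 h5
      · obtain ⟨h6, h7⟩ := h1.2 a2
        have := back q0 h7 _ h4 h5
        rw [i1, show n - j + 1 = n - (j - 1) by simp at a3; omega] at this
        exact ⟨by simp, fun _ => ⟨by omega, this⟩⟩
      · obtain rfl : j = 0 := by simpa using a3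
        exact ⟨rfl, _, back q0 (h1.2 a2).2 _ h4 h5, h⟩
      · simp [mc]

end Pool.Agent.H.MP_a5b0d0_al
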